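import Mathlib
open MeasureTheory Set
namespace Pool.Agent.Results.MP_c6df36_pr.Expectation

/-- law of n independent uniform points of the unit square -/
noncomputable def sample (n : ℕ) : Measure (Fin n → Fin 2 → ℝ) :=
  Measure.pi fun _ => Measure.pi fun _ => volume.restrict (Icc (0:ℝ) 1)

/-- the cost of the matching given by a permutation -/
noncomputable def cost (α : Fin 2 → ℝ) (C : ℝ) (n : ℕ) (X Y : Fin n → Fin 2 → ℝ)
    (σ : Equiv.Perm (Fin n)) : ℝ :=
  max (∑ i, Real.exp ((1 / C * √(n / Real.log n) * |X i 0 - Y (σ i) 0|) ^ α 0))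
    (∑ i, Real.exp ((1 / C * √(n / Real.log n) * |X i 1 - Y (σ i) 1|) ^ α 1))

lemma box (n : ℕ) (a : ℝ) (h0 : 0 ≤ a) (h1 : a + 1 / 4 ≤ 1) :
    sample n (univ.pi fun _ => univ.pi ![Icc a (a + 1 / 4), Icc 0 1]) =
      ENNReal.ofReal ((1 / 4) ^ n) := by
  rw [sample, Measure.pi_pi]
  simp only [Measure.pi_pi, Fin.prod_univ_two, Matrix.cons_val_zero, Matrix.cons_val_one,
    Measure.restrict_apply measurableSet_Icc, inter_self,
    inter_eq_left.2 (Icc_subset_Icc h0 h1), Real.volume_Icc]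
  simp [ENNReal.ofReal_pow, ENNReal.inv_pow]

lemma grow {α C : ℝ} (hα : 2 < α) (hC : 0 < C) : ∃ n : ℕ, 2 ≤ n ∧
    C * n < (1 / 4) ^ n * (1 / 4) ^ n * Real.exp ((1 / C * √(n / Real.log n) * (1 / 2)) ^ α) := by
  set η := (α / 2 - 1) / α with hη
  have hη0 : 0 < η := div_pos (by linarith) (by linarith)
  set k := (1 / C * (1 / 2)) ^ α * η ^ (α / 2) with hk
  have hk0 : 0 < k := by positivity
  have h := ((tendsto_rpow_atTop (show 0 < (α / 2 - 1) / 2 by linarith)).comp
    tendsto_natCast_atTop_atTop).const_mul_atTop hk0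
  obtain ⟨n, h1, h2⟩ := ((h.eventually_ge_atTop (3 + C)).and (Filter.eventually_ge_atTop 2)).exists
  refine ⟨n, h2, ?_⟩
  have hn : (2:ℝ) ≤ n := by exact_mod_cast h2
  have hl : 0 < Real.log n := Real.log_pos (by linarith)
  have h3 : η * (n:ℝ) ^ (1 - η) ≤ n / Real.log n := by
    have := Real.log_le_rpow_div (show (0:ℝ) ≤ n by linarith) hη0
    rw [le_div_iff₀ hl]
    calc _ ≤ η * (n:ℝ) ^ (1 - η) * (n ^ η / η) := by gcongr
      _ = (n:ℝ) ^ (1 - η) * n ^ η := by field_simp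
      _ = n := by rw [← Real.rpow_add (by linarith)]; simp
  have h4 : (3 + C) * n ≤ (1 / C * √(n / Real.log n) * (1 / 2)) ^ α := by
    calc (3 + C) * n ≤ k * (n:ℝ) ^ ((α / 2 - 1) / 2) * n := by gcongr; exact h1
      _ = (1 / C * (1 / 2)) ^ α * (η * (n:ℝ) ^ (1 - η)) ^ (α / 2) := by
        rw [Real.mul_rpow hη0.le (by positivity), ← Real.rpow_mul (by linarith), hk, mul_assoc,
          mul_assoc, ← Real.rpow_add_one (by linarith)]
        congr 3
        have : α ≠ 0 := by linarith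
        rw [hη]; field_simp; ring
      _ ≤ (1 / C * (1 / 2)) ^ α * (n / Real.log n) ^ (α / 2) := by gcongr
      _ = _ := by
        rw [mul_right_comm, Real.mul_rpow (by positivity) (Real.sqrt_nonneg _), Real.sqrt_eq_rpow,
          ← Real.rpow_mul (by positivity)]
        congr 2; ring
  have h5 : (16:ℝ) ^ n ≤ Real.exp (3 * n) := by
    rw [mul_comm, Real.exp_nat_mul]
    gcongr
    have := Real.sum_le_exp_of_nonneg (x := 3) (by norm_num) 5
    norm_num [Finset.sum_range_succ, Nat.factorial] at this ⊢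
    linarith
  have h6 : C * n < Real.exp (C * n) := by linarith [Real.add_one_le_exp (C * n)]
  have h7 := Real.exp_le_exp.2 h4
  rw [add_mul, Real.exp_add] at h7
  have h8 : (1 / 4 : ℝ) ^ n * (1 / 4) ^ n * 16 ^ n = 1 := by rw [← mul_pow, ← mul_pow]; norm_num
  calc C * n < (1 / 4) ^ n * (1 / 4) ^ n * (16 ^ n * Real.exp (C * n)) := by
        rw [← mul_assoc, h8, one_mul]; exact h6
    _ ≤ _ := by
        gcongr
        exact le_trans (by gcongr) h7

theorem result (α : Fin 2 → ℝ) (h0 : 0 < α 0) (h1 : 0 < α 1) (hα : 1 / α 0 + 1 / α 1 = 1 / 2)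
    (C : ℝ) (hC : 0 < C) : ∃ n : ℕ, 2 ≤ n ∧ ENNReal.ofReal (C * n) <
      ∫⁻ p, ENNReal.ofReal (⨅ σ, cost α C n p.1 p.2 σ) ∂((sample n).prod (sample n)) := by
  have h2 : 2 < α 0 := by
    have : 1 / α 0 < 1 / 2 := by have : 0 < 1 / α 1 := by positivity
                                 linarith
    exact (one_div_lt_one_div h0 two_pos).1 this
  obtain ⟨n, hn, h⟩ := grow h2 hC
  refine ⟨n, hn, ?_⟩
  have : SigmaFinite (sample n) := by unfold sample; infer_instance
  set A : Set (Fin n → Fin 2 → ℝ) := univ.pi fun _ => univ.pi ![Icc 0 (0 + 1 / 4), Icc 0 1]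
  set B : Set (Fin n → Fin 2 → ℝ) := univ.pi fun _ => univ.pi ![Icc (3 / 4) (3 / 4 + 1 / 4), Icc 0 1]
  have m : ∀ a b : ℝ, MeasurableSet (univ.pi fun _ : Fin n => univ.pi ![Icc a b, Icc (0:ℝ) 1]) :=
    fun a b => MeasurableSet.univ_pi fun _ => MeasurableSet.univ_pi fun j => by
      fin_cases j <;> exact measurableSet_Icc
  refine lt_of_lt_of_le ?_ (lintegral_mono (f := (A ×ˢ B).indicator fun _ =>
    ENNReal.ofReal (Real.exp ((1 / C * √(n / Real.log n) * (1 / 2)) ^ α 0))) fun p => ?_)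
  · rw [lintegral_indicator_const ((m _ _).prod (m _ _)), Measure.prod_prod,
      box n 0 le_rfl (by norm_num), box n (3 / 4) (by norm_num) (by norm_num),
      ← ENNReal.ofReal_mul (by positivity), ← ENNReal.ofReal_mul (by positivity), mul_comm (Real.exp _)]
    exact (ENNReal.ofReal_lt_ofReal_iff (lt_trans (by positivity) h)).2 h
  · by_cases hp : p ∈ A ×ˢ B
    swap
    · rw [indicator_of_notMem hp]; exact zero_le
    rw [indicator_of_mem hp]
    refine ENNReal.ofReal_le_ofReal (le_ciInf fun σ => ?_)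
    let i : Fin n := ⟨0, by omega⟩
    refine le_trans ?_ ((Finset.single_le_sum (f := fun i => Real.exp
      ((1 / C * √(n / Real.log n) * |p.1 i 0 - p.2 (σ i) 0|) ^ α 0))
      (fun _ _ => (Real.exp_pos _).le) (Finset.mem_univ i)).trans (le_max_left _ _))
    have a1 : p.1 i 0 ≤ 0 + 1 / 4 := (hp.1 i trivial 0 trivial).2
    have a2 : 3 / 4 ≤ p.2 (σ i) 0 := (hp.2 (σ i) trivial 0 trivial).1
    have : 1 / 2 ≤ |p.1 i 0 - p.2 (σ i) 0| := by rw [le_abs]; right; linarith
    gcongr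

end Pool.Agent.Results.MP_c6df36_pr.Expectation
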